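import Mathlib

/-!
# Locally constructible 4-complexes: definitions and statements of the bricks
-/

set_option autoImplicit false

namespace Pool.Agent.K3h88.LCM

open Finset Quaternion

universe u v

variable {V : Type u} [DecidableEq V]

/-- the complex generated by a family of sets: all nonempty subsets of the members -/
def faces (F : Finset (Finset V)) : Finset (Finset V) :=
  (F.biUnion (fun A => A.powerset)).filter (fun s => s.Nonempty)

/-- Euler characteristic of the complex generated by `F` -/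
def euler (F : Finset (Finset V)) : ℤ := ∑ s ∈ faces F, (-1) ^ (s.card + 1)

/-- the tetrahedra contained in exactly `k` members of `F` -/
def tets (F : Finset (Finset V)) (k : ℕ) : Finset (Finset V) :=
  (faces F).filter (fun τ => τ.card = 4 ∧ (F.filter (fun A => τ ⊆ A)).card = k)

/-- the facets `A`, `B` are glued along a tetrahedron in `S` which contains `s` -/
def Adj (F S : Finset (Finset V)) (s A B : Finset V) : Prop :=
  A ∈ F ∧ B ∈ F ∧ ∃ τ ∈ S, s ⊆ τ ∧ τ ⊆ A ∧ τ ⊆ B

/-- the copies of the face `s` in the facets `A`, `B` are identified if the facets are glued along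
the tetrahedra in `S` -/
def Same (F S : Finset (Finset V)) (s A B : Finset V) : Prop :=
  Relation.ReflTransGen (Adj F S s) A B

/-- gluing data: `T` is the tree, `σ i` are the tetrahedra glued afterwards, along the ridges
`ρ i` -/
structure GD (F T : Finset (Finset V)) (k : ℕ) (σ ρ : Fin k → Finset V) : Prop where
  ne : F.Nonempty
  pure : ∀ A ∈ F, A.card = 5
  two : ∀ τ : Finset V, τ.card = 4 → (F.filter (fun A => τ ⊆ A)).card ≤ 2
  Tin : T ⊆ tets F 2
  Tcard : T.card + 1 = F.card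
  Tconn : ∀ A ∈ F, ∀ B ∈ F, Same F T ∅ A B
  σinj : Function.Injective σ
  σin : ∀ i, σ i ∈ tets F 2
  σT : ∀ i, σ i ∉ T
  all : ∀ τ ∈ tets F 2, τ ∈ T ∨ ∃ i, σ i = τ
  ρσ : ∀ i, ρ i ⊆ σ i
  ρc : ∀ i, (ρ i).card = 3
  loc : ∀ i, ∀ A ∈ F, ∀ B ∈ F, σ i ⊆ A → σ i ⊆ B →
    Same F (T ∪ (univ.filter (fun j => j < i)).image σ) (ρ i) A B
  res : ∀ s : Finset V, s.Nonempty → ∀ A ∈ F, ∀ B ∈ F, s ⊆ A → s ⊆ B → Same F (tets F 2) s A B

/-- relation on a set of vertices -/
def Rel {H : Type v} [Group H] (x : V → V → H) (t : Finset V) : Prop :=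
  ∀ a ∈ t, ∀ b ∈ t, ∀ c ∈ t, x a b * x b c = x a c

/-- brick L2: cocycles on a locally constructible complex are trivial -/
def StmL2 : Prop := ∀ (V : Type u) [DecidableEq V] (F T : Finset (Finset V)) (k : ℕ)
  (σ ρ : Fin k → Finset V), GD F T k σ ρ → ∀ (H : Type v) [Group H] (x : V → V → H),
  (∀ A ∈ F, Rel x A) → ∃ h : V → H, ∀ A ∈ F, ∀ a ∈ A, ∀ b ∈ A, x a b = (h a)⁻¹ * h b

/-- brick L3: the ridges -/
def StmL3 : Prop := ∀ (V : Type u) [DecidableEq V] (F T : Finset (Finset V)) (k : ℕ)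
  (σ ρ : Fin k → Finset V), GD F T k σ ρ →
  (∀ i j, ρ j ⊆ σ i → i ≤ j) ∧ (∀ j, ρ j ∉ faces (tets F 1))

/-- brick L4: reverse collapse -/
def StmL4 : Prop := ∀ (V : Type u) [DecidableEq V] (F T : Finset (Finset V)) (k : ℕ)
  (σ ρ : Fin k → Finset V), GD F T k σ ρ → (∀ i j, ρ j ⊆ σ i → i ≤ j) →
  ∀ (H : Type v) [Group H] (x : V → V → H), (∀ t ∈ faces F, t.card = 3 → (∀ j, ρ j ≠ t) → Rel x t) →
  ∀ A ∈ F, Rel x A

/-- the faces with `m` vertices that are not contained in a boundary tetrahedron -/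
def inn (F : Finset (Finset V)) (m : ℕ) : Finset (Finset V) :=
  (faces F \ faces (tets F 1)).filter (fun s => s.card = m)

/-- brick L5: counting -/
def StmL5 : Prop := ∀ (V : Type u) [DecidableEq V] (F T : Finset (Finset V)) (k : ℕ)
  (σ ρ : Fin k → Finset V), GD F T k σ ρ → euler F - euler (tets F 1) = 1 →
  (inn F 1).card + (inn F 3).card = (inn F 2).card + k

/-- brick L6: parents -/
def StmL6 : Prop := ∀ (V : Type u) [DecidableEq V] (F T : Finset (Finset V)) (k : ℕ)
  (σ ρ : Fin k → Finset V), GD F T k σ ρ → (tets F 1).Nonempty →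
  ∃ (p : V → V) (d : V → ℕ), ∀ v : V, {v} ∈ faces F → {v} ∉ faces (tets F 1) →
    {v, p v} ∈ faces F ∧ p v ≠ v ∧ d (p v) < d v

/-- unit quaternions, that is, `SU(2)` -/
abbrev G : Type := Metric.sphere (0 : ℍ[ℝ]) 1

/-- brick L9: a Borsuk-Ulam theorem for products of three-dimensional spheres -/
def StmL9 : Prop := ∀ (n : ℕ) (Q : (Fin n → G) → Fin n → G), Continuous Q →
  (∀ x k i, Q (Function.update x k (-(x k))) i = if i = k then -(Q x i) else Q x i) →
  ∃ x, ∀ i, Q x i = 1 ∨ Q x i = -1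

/-- brick L8: nonsingular systems over the unit quaternions -/
def StmL8 : Prop := ∀ (n : ℕ) (A : Matrix (Fin n) (Fin n) (ZMod 2)), A.det ≠ 0 →
  ∀ P : (Fin n → G) → Fin n → G, Continuous P →
  (∀ x k i, P (Function.update x k (-(x k))) i = if A i k = 1 then -(P x i) else P x i) →
  ∃ x, ∀ i, P x i = 1

end Pool.Agent.K3h88.LCM
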