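import Pool.Agent.K3h88.LCM.Tri

/-!
# Assembly: the square system of equations for the edges inside
-/

set_option autoImplicit false

namespace Pool.Agent.K3h88.LCM

open Finset Quaternion

universe u v

variable {V : Type u} [DecidableEq V]

/-- interior vertices -/
def Vi (F : Finset (Finset V)) : Finset V :=
  (F.biUnion id).filter (fun v => {v} ∉ faces (tets F 1))

theorem mem_Vi {F : Finset (Finset V)} {v : V} :
    v ∈ Vi F ↔ {v} ∈ faces F ∧ {v} ∉ faces (tets F 1) := by
  unfold Vi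
  rw [mem_filter, mem_biUnion]
  refine and_congr_left fun _ => ?_
  rw [mem_faces]
  simp only [id, singleton_subset_iff, singleton_nonempty, true_and]

theorem inn_one (F : Finset (Finset V)) : inn F 1 = (Vi F).image (fun v => {v}) := by
  ext s
  simp only [inn, mem_filter, mem_sdiff, mem_image, mem_Vi]
  constructor
  · rintro ⟨⟨h1, h2⟩, h3⟩
    obtain ⟨a, rfl⟩ := card_eq_one.1 h3
    exact ⟨a, ⟨h1, h2⟩, rfl⟩
  · rintro ⟨a, ⟨h1, h2⟩, rfl⟩
    exact ⟨⟨h1, h2⟩, card_singleton a⟩

theorem card_inn_one (F : Finset (Finset V)) : (inn F 1).card = (Vi F).card := by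
  rw [inn_one, card_image_of_injective _ singleton_injective]

/-- edges to the parents -/
def E0 (F : Finset (Finset V)) (p : V → V) : Finset (Finset V) :=
  (Vi F).image (fun v => {v, p v})

/-- `p` and `d` are as in brick L6 -/
def Par (F : Finset (Finset V)) (p : V → V) (d : V → ℕ) : Prop :=
  ∀ v : V, {v} ∈ faces F → {v} ∉ faces (tets F 1) → {v, p v} ∈ faces F ∧ p v ≠ v ∧ d (p v) < d v

theorem card_E0 {F : Finset (Finset V)} {p : V → V} {d : V → ℕ} (h : Par F p d) :
    (E0 F p).card = (Vi F).card := by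
  unfold E0
  apply card_image_of_injOn
  intro v hv w hw hvw
  by_contra hne
  have hv' := mem_Vi.1 (mem_coe.1 hv)
  have hw' := mem_Vi.1 (mem_coe.1 hw)
  have d1 := (h v hv'.1 hv'.2).2.2
  have d2 := (h w hw'.1 hw'.2).2.2
  have e : ({v, p v} : Finset V) = {w, p w} := hvw
  have h1 : v ∈ ({w, p w} : Finset V) := by rw [← e]; simp
  have h2 : w ∈ ({v, p v} : Finset V) := by rw [e]; simp
  simp only [mem_insert, mem_singleton] at h1 h2
  rcases h1 with h1 | h1
  · exact hne h1
  rcases h2 with h2 | h2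
  · exact hne h2.symm
  rw [← h1] at d2
  rw [← h2] at d1
  omega

theorem E0_sub {F : Finset (Finset V)} {p : V → V} {d : V → ℕ} (h : Par F p d) :
    E0 F p ⊆ inn F 2 := by
  intro s hs
  obtain ⟨v, hv, rfl⟩ := mem_image.1 hs
  have hv' := mem_Vi.1 hv
  obtain ⟨h1, h2, -⟩ := h v hv'.1 hv'.2
  simp only [inn, mem_filter, mem_sdiff]
  refine ⟨⟨h1, fun h3 => hv'.2 (faces_mono h3 (singleton_nonempty v) ?_)⟩,
    card_pair (Ne.symm h2)⟩
  simp

theorem mem_inn {F : Finset (Finset V)} {m : ℕ} {s : Finset V} :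
    s ∈ inn F m ↔ s ∈ faces F ∧ s ∉ faces (tets F 1) ∧ s.card = m := by
  simp only [inn, mem_filter, mem_sdiff, and_assoc]

/-- the data of the system -/
structure SD (F : Finset (Finset V)) (n k : ℕ) (ρ : Fin k → Finset V) (p : V → V) where
  /-- the unknown edges -/
  e : Fin n → Finset V
  einj : Function.Injective e
  emem : ∀ s, (∃ i, e i = s) ↔ s ∈ inn F 2 ∧ s ∉ E0 F p
  /-- the corners of the triangles -/
  A : Fin n → V
  B : Fin n → V
  C : Fin n → V
  AB : ∀ j, A j ≠ B j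
  BC : ∀ j, B j ≠ C j
  CA : ∀ j, C j ≠ A j
  tinj : Function.Injective (fun j => ({A j, B j, C j} : Finset V))
  tmem : ∀ s, (∃ j, ({A j, B j, C j} : Finset V) = s) ↔ s ∈ inn F 3 ∧ ∀ i, ρ i ≠ s

theorem exists_SD {F T : Finset (Finset V)} {k : ℕ} {σ ρ : Fin k → Finset V}
    (D : GD F T k σ ρ) {p : V → V} {d : V → ℕ} (hp : Par F p d)
    (h5 : (inn F 1).card + (inn F 3).card = (inn F 2).card + k)
    (h3 : ∀ i j, ρ j ⊆ σ i → i ≤ j) (h3' : ∀ j, ρ j ∉ faces (tets F 1)) :
    ∃ n, Nonempty (SD F n k ρ p) := by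
  classical
  have ρinj : Function.Injective ρ := by
    intro i j hij
    exact le_antisymm (h3 i j (hij ▸ D.ρσ i)) (h3 j i (hij ▸ D.ρσ j))
  have ρmem : ∀ i, ρ i ∈ inn F 3 := by
    intro i
    rw [mem_inn]
    refine ⟨?_, h3' i, D.ρc i⟩
    have h1 := (mem_tets.1 (D.σin i)).1
    refine faces_mono h1 ?_ (D.ρσ i)
    rw [← card_pos, D.ρc i]; norm_num
  set U := inn F 2 \ E0 F p with hU
  set R := inn F 3 \ univ.image ρ with hR
  have memU : ∀ s, s ∈ U ↔ s ∈ inn F 2 ∧ s ∉ E0 F p := fun s => by rw [hU, mem_sdiff]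
  have memR : ∀ s, s ∈ R ↔ s ∈ inn F 3 ∧ s ∉ univ.image ρ := fun s => by rw [hR, mem_sdiff]
  have cU : U.card + (inn F 1).card = (inn F 2).card := by
    rw [hU, card_sdiff_of_subset (E0_sub hp), card_E0 hp, card_inn_one]
    have := card_le_card (E0_sub hp)
    rw [card_E0 hp] at this
    omega
  have cR : R.card + k = (inn F 3).card := by
    have hsub : univ.image ρ ⊆ inn F 3 := by
      intro s hs
      obtain ⟨i, -, rfl⟩ := mem_image.1 hs
      exact ρmem i
    have hc : (univ.image ρ).card = k := by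
      rw [card_image_of_injective _ ρinj, card_univ, Fintype.card_fin]
    rw [hR, card_sdiff_of_subset hsub, hc]
    have := card_le_card hsub
    rw [hc] at this
    omega
  have cUR : U.card = R.card := by omega
  refine ⟨U.card, ?_⟩
  let eU := U.equivFin
  let eR := R.equivFinOfCardEq cUR.symm
  have tri : ∀ j : Fin U.card, ∃ a b c : V, a ≠ b ∧ b ≠ c ∧ c ≠ a ∧
      ({a, b, c} : Finset V) = (eR.symm j).1 := by
    intro j
    have h1 := mem_inn.1 ((memR _).1 (eR.symm j).2).1
    obtain ⟨a, b, c, h2, h4, h5, h6⟩ := card_eq_three.1 h1.2.2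
    exact ⟨a, b, c, h2, h5, h4.symm, h6.symm⟩
  choose A B C hAB hBC hCA hABC using tri
  refine ⟨⟨fun i => (eU.symm i).1, ?_, ?_, A, B, C, hAB, hBC, hCA, ?_, ?_⟩⟩
  · intro i j hij
    exact eU.symm.injective (Subtype.ext hij)
  · intro s
    constructor
    · rintro ⟨i, rfl⟩
      exact (memU _).1 (eU.symm i).2
    · rintro h
      have h' : s ∈ U := (memU s).2 h
      exact ⟨eU ⟨s, h'⟩, by rw [Equiv.symm_apply_apply]⟩
  · intro i j hij
    simp only [hABC] at hij
    exact eR.symm.injective (Subtype.ext hij)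
  · intro s
    constructor
    · rintro ⟨j, rfl⟩
      rw [hABC]
      have := (memR _).1 (eR.symm j).2
      refine ⟨this.1, fun i hi => this.2 ?_⟩
      rw [← hi]
      exact mem_image_of_mem _ (mem_univ i)
    · rintro ⟨h1, h2⟩
      have h' : s ∈ R := by
        refine (memR s).2 ⟨h1, fun h4 => ?_⟩
        obtain ⟨i, -, h5⟩ := mem_image.1 h4
        exact h2 i h5
      exact ⟨eR ⟨s, h'⟩, by rw [hABC, Equiv.symm_apply_apply]⟩

end Pool.Agent.K3h88.LCM
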