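import Mathlib

/-!
# Fundamental groups of two Brieskorn spheres: nontrivial representations in the unit quaternions
-/

set_option autoImplicit false
set_option synthInstance.maxHeartbeats 400000

namespace Pool.Agent.K3h88.LCM

open Quaternion

/-- the relators -/
def brels (q r : ℕ) : Set (FreeGroup (Fin 4)) :=
  let x := FreeGroup.of 0
  let y := FreeGroup.of 1
  let z := FreeGroup.of 2
  let h := FreeGroup.of 3
  {x * h * x⁻¹ * h⁻¹, y * h * y⁻¹ * h⁻¹, z * h * z⁻¹ * h⁻¹, x ^ 2 * h, y ^ q * h⁻¹,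
    z ^ r * h⁻¹ ^ 2, x * y * z}

theorem rep_of {H : Type} [Group H] {q r : ℕ} {m y z : H} (hmm : m * m = 1)
    (hcomm : ∀ w : H, w * m = m * w) (hyq : y ^ q = m) (hzr : z ^ r = 1) (hyz : (y * z) ^ 2 = m)
    (hm : m ≠ 1) : ∃ ψ : PresentedGroup (brels q r) →* H, ψ (PresentedGroup.of 3) ≠ 1 := by
  have hinv : m⁻¹ = m := inv_eq_of_mul_eq_one_left hmm
  obtain ⟨f, hf⟩ : ∃ f : Fin 4 → H, f = ![(y * z)⁻¹, y, z, m] := ⟨_, rfl⟩
  have f0 : f 0 = (y * z)⁻¹ := by rw [hf]; rfl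
  have f1 : f 1 = y := by rw [hf]; rfl
  have f2 : f 2 = z := by rw [hf]; rfl
  have f3 : f 3 = m := by rw [hf]; rfl
  have hrel : ∀ w ∈ brels q r, FreeGroup.lift f w = 1 := by
    intro w hw
    rcases hw with rfl | rfl | rfl | rfl | rfl | rfl | rfl
    · simp only [map_mul, map_inv, FreeGroup.lift_apply_of]
      rw [f3, hcomm, mul_inv_cancel_right, hinv, hmm]
    · simp only [map_mul, map_inv, FreeGroup.lift_apply_of]
      rw [f3, hcomm, mul_inv_cancel_right, hinv, hmm]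
    · simp only [map_mul, map_inv, FreeGroup.lift_apply_of]
      rw [f3, hcomm, mul_inv_cancel_right, hinv, hmm]
    · rw [map_mul, map_pow, FreeGroup.lift_apply_of, FreeGroup.lift_apply_of, f0, f3, inv_pow, hyz,
        hinv, hmm]
    · rw [map_mul, map_pow, map_inv, FreeGroup.lift_apply_of, FreeGroup.lift_apply_of, f1, f3, hyq,
        hinv, hmm]
    · rw [map_mul, map_pow, map_pow, map_inv, FreeGroup.lift_apply_of, FreeGroup.lift_apply_of, f2,
        f3, hzr, hinv, sq, hmm, one_mul]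
    · rw [map_mul, map_mul, FreeGroup.lift_apply_of, FreeGroup.lift_apply_of,
        FreeGroup.lift_apply_of, f0, f1, f2, mul_inv_rev]
      group
  refine ⟨PresentedGroup.toGroup hrel, ?_⟩
  rw [PresentedGroup.toGroup.of, f3]
  exact hm

/-- the quaternion `cos t + sin t (c i + s j)` -/
noncomputable def qe (c s t : ℝ) : ℍ[ℝ] :=
  ⟨Real.cos t, Real.sin t * c, Real.sin t * s, 0⟩

theorem qe_re (c s t : ℝ) : (qe c s t).re = Real.cos t := rfl
theorem qe_imI (c s t : ℝ) : (qe c s t).imI = Real.sin t * c := rfl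
theorem qe_imJ (c s t : ℝ) : (qe c s t).imJ = Real.sin t * s := rfl
theorem qe_imK (c s t : ℝ) : (qe c s t).imK = 0 := rfl

theorem qe_mul {c s : ℝ} (h : c ^ 2 + s ^ 2 = 1) (a b : ℝ) : qe c s a * qe c s b = qe c s (a + b) := by
  apply Quaternion.ext
  · rw [Quaternion.re_mul]
    simp only [qe_re, qe_imI, qe_imJ, qe_imK, Real.cos_add]
    linear_combination (-(Real.sin a * Real.sin b)) * h
  · rw [Quaternion.imI_mul]
    simp only [qe_re, qe_imI, qe_imJ, qe_imK, Real.sin_add]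
    ring
  · rw [Quaternion.imJ_mul]
    simp only [qe_re, qe_imI, qe_imJ, qe_imK, Real.sin_add]
    ring
  · rw [Quaternion.imK_mul]
    simp only [qe_re, qe_imI, qe_imJ, qe_imK]
    ring

theorem qe_pow {c s : ℝ} (h : c ^ 2 + s ^ 2 = 1) (a : ℝ) (n : ℕ) : qe c s a ^ n = qe c s (n * a) := by
  induction n with
  | zero =>
    rw [pow_zero]
    ext <;> simp [qe]
  | succ n ih =>
    rw [pow_succ, ih, qe_mul h]
    congr 1
    push_cast
    ring

theorem qe_norm {c s : ℝ} (h : c ^ 2 + s ^ 2 = 1) (a : ℝ) : ‖qe c s a‖ = 1 := by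
  have h1 : Quaternion.normSq (qe c s a) = 1 := by
    rw [Quaternion.normSq_def']
    simp only [qe_re, qe_imI, qe_imJ, qe_imK]
    linear_combination Real.sin a ^ 2 * h + Real.sin_sq_add_cos_sq a
  have h2 := Quaternion.normSq_eq_norm_mul_self (qe c s a)
  rw [h1] at h2
  have h3 := norm_nonneg (qe c s a)
  nlinarith

/-- the element of the sphere -/
noncomputable def qs (c s t : ℝ) (h : c ^ 2 + s ^ 2 = 1) : Metric.sphere (0 : ℍ[ℝ]) 1 :=
  ⟨qe c s t, by rw [mem_sphere_zero_iff_norm]; exact qe_norm h t⟩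

theorem exists_rep {q r : ℕ} {a b : ℝ} (ha : Real.cos (q * a) = -1) (hb : Real.cos (r * b) = 1)
    (ha2 : Real.cos a ^ 2 ≤ 1 / 2) (hb2 : Real.cos b ^ 2 ≤ 1 / 2) :
    ∃ ψ : PresentedGroup (brels q r) →* Metric.sphere (0 : ℍ[ℝ]) 1,
      ψ (PresentedGroup.of 3) ≠ 1 := by
  have sa : Real.sin a ^ 2 = 1 - Real.cos a ^ 2 := by
    have := Real.sin_sq_add_cos_sq a
    linarith
  have sb : Real.sin b ^ 2 = 1 - Real.cos b ^ 2 := by
    have := Real.sin_sq_add_cos_sq b
    linarith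
  have sa0 : Real.sin a ≠ 0 := by
    intro h
    rw [h] at sa
    nlinarith
  have sb0 : Real.sin b ≠ 0 := by
    intro h
    rw [h] at sb
    nlinarith
  have hab : 0 < (Real.sin a * Real.sin b) ^ 2 := by positivity
  obtain ⟨c, hcdef⟩ : ∃ c : ℝ, c = Real.cos a * Real.cos b / (Real.sin a * Real.sin b) := ⟨_, rfl⟩
  have hc0 : c * (Real.sin a * Real.sin b) = Real.cos a * Real.cos b := by
    rw [hcdef]
    field_simp
  have hc1 : c ^ 2 ≤ 1 := by
    have h1 : c ^ 2 * (Real.sin a * Real.sin b) ^ 2 = (Real.cos a * Real.cos b) ^ 2 := by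
      rw [← hc0]; ring
    have h2 : (Real.cos a * Real.cos b) ^ 2 ≤ (Real.sin a * Real.sin b) ^ 2 := by
      rw [mul_pow, mul_pow, sa, sb]
      have := sq_nonneg (Real.cos a)
      have := sq_nonneg (Real.cos b)
      nlinarith
    by_contra h3
    rw [not_le] at h3
    nlinarith
  obtain ⟨s, hs⟩ : ∃ s : ℝ, c ^ 2 + s ^ 2 = 1 := by
    refine ⟨Real.sqrt (1 - c ^ 2), ?_⟩
    rw [Real.sq_sqrt (by linarith)]
    ring
  have h10 : (1 : ℝ) ^ 2 + (0 : ℝ) ^ 2 = 1 := by norm_num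
  -- the images of the generators
  obtain ⟨y, hy⟩ : ∃ y, y = qs 1 0 a h10 := ⟨_, rfl⟩
  obtain ⟨z, hz⟩ : ∃ z, z = qs c s b hs := ⟨_, rfl⟩
  have hy1 : ((y : ℍ[ℝ])) = qe 1 0 a := by rw [hy]; rfl
  have hz1 : ((z : ℍ[ℝ])) = qe c s b := by rw [hz]; rfl
  have hn : ((-1 : Metric.sphere (0 : ℍ[ℝ]) 1) : ℍ[ℝ]) = -1 := by
    simp
  have hyq : y ^ q = -1 := by
    apply Subtype.ext
    rw [Metric.unitSphere.coe_pow, hn, hy1, qe_pow h10]
    have h1 : Real.sin (q * a) = 0 := by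
      have := Real.sin_sq_add_cos_sq (q * a)
      rw [ha] at this
      have h2 : Real.sin (q * a) ^ 2 = 0 := by linarith
      exact pow_eq_zero_iff (two_ne_zero) |>.1 h2
    ext <;> simp [qe, ha, h1]
  have hzr : z ^ r = 1 := by
    apply Subtype.ext
    rw [Metric.unitSphere.coe_pow, hz1, qe_pow hs]
    have h1 : Real.sin (r * b) = 0 := by
      have := Real.sin_sq_add_cos_sq (r * b)
      rw [hb] at this
      have h2 : Real.sin (r * b) ^ 2 = 0 := by linarith
      exact pow_eq_zero_iff (two_ne_zero) |>.1 h2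
    ext <;> simp [qe, hb, h1]
  have hyz : (y * z) ^ 2 = -1 := by
    apply Subtype.ext
    rw [Metric.unitSphere.coe_pow, hn, Metric.unitSphere.coe_mul, hy1, hz1]
    have hre : (qe 1 0 a * qe c s b).re = 0 := by
      rw [Quaternion.re_mul]
      simp only [qe_re, qe_imI, qe_imJ, qe_imK]
      linear_combination -hc0
    have hno : Quaternion.normSq (qe 1 0 a * qe c s b) = 1 := by
      rw [Quaternion.normSq_eq_norm_mul_self, norm_mul, qe_norm h10, qe_norm hs]
      norm_num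
    obtain ⟨w, hw⟩ : ∃ w, w = qe 1 0 a * qe c s b := ⟨_, rfl⟩
    rw [← hw] at hre hno ⊢
    rw [Quaternion.normSq_def'] at hno
    rw [sq]
    ext
    · rw [Quaternion.re_mul, hre]
      rw [hre] at hno
      simp only [Quaternion.re_neg, Quaternion.re_one]
      linarith
    · rw [Quaternion.imI_mul, hre]
      simp only [Quaternion.imI_neg, Quaternion.imI_one]
      ring
    · rw [Quaternion.imJ_mul, hre]
      simp only [Quaternion.imJ_neg, Quaternion.imJ_one]
      ring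
    · rw [Quaternion.imK_mul, hre]
      simp only [Quaternion.imK_neg, Quaternion.imK_one]
      ring
  have hm : (-1 : Metric.sphere (0 : ℍ[ℝ]) 1) ≠ 1 := by
    intro h
    have h1 := congrArg (fun w : Metric.sphere (0 : ℍ[ℝ]) 1 => (w : ℍ[ℝ]).re) h
    simp at h1
    norm_num at h1
  have hmm : (-1 : Metric.sphere (0 : ℍ[ℝ]) 1) * -1 = 1 := by
    apply Subtype.ext
    simp
  have hcomm : ∀ w : Metric.sphere (0 : ℍ[ℝ]) 1, w * -1 = -1 * w := by
    intro w
    apply Subtype.ext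
    simp
  exact rep_of hmm hcomm hyq hzr hyz hm

theorem cos_mid {t : ℝ} (h1 : Real.pi / 4 ≤ t) (h2 : t ≤ 3 * Real.pi / 4) :
    Real.cos t ^ 2 ≤ 1 / 2 := by
  have hp := Real.pi_pos
  have h3 : Real.cos (2 * t) ≤ 0 := by
    apply Real.cos_nonpos_of_pi_div_two_le_of_le
    · linarith
    · linarith
  have h4 := Real.cos_sq t
  rw [h4]
  linarith

theorem rep57 : ∃ ψ : PresentedGroup (brels 5 7) →* Metric.sphere (0 : ℍ[ℝ]) 1,
    ψ (PresentedGroup.of 3) ≠ 1 := by
  have hp := Real.pi_pos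
  refine exists_rep (a := 3 * Real.pi / 5) (b := 4 * Real.pi / 7) ?_ ?_ ?_ ?_
  · have h1 : ((5 : ℕ) : ℝ) * (3 * Real.pi / 5) = Real.pi + 2 * Real.pi := by
      push_cast
      ring
    rw [h1, Real.cos_add_two_pi, Real.cos_pi]
  · have h1 : ((7 : ℕ) : ℝ) * (4 * Real.pi / 7) = (2 : ℕ) * (2 * Real.pi) := by
      push_cast
      ring
    rw [h1, Real.cos_nat_mul_two_pi]
  · apply cos_mid <;> linarith
  · apply cos_mid <;> linarith

theorem rep313 : ∃ ψ : PresentedGroup (brels 3 13) →* Metric.sphere (0 : ℍ[ℝ]) 1,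
    ψ (PresentedGroup.of 3) ≠ 1 := by
  have hp := Real.pi_pos
  refine exists_rep (a := Real.pi / 3) (b := 6 * Real.pi / 13) ?_ ?_ ?_ ?_
  · have h1 : ((3 : ℕ) : ℝ) * (Real.pi / 3) = Real.pi := by
      push_cast
      ring
    rw [h1, Real.cos_pi]
  · have h1 : ((13 : ℕ) : ℝ) * (6 * Real.pi / 13) = (3 : ℕ) * (2 * Real.pi) := by
      push_cast
      ring
    rw [h1, Real.cos_nat_mul_two_pi]
  · apply cos_mid <;> linarith
  · apply cos_mid <;> linarith

end Pool.Agent.K3h88.LCM
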