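import Pool.Agent.K3h88.LCM.Asm

/-!
# The cochain with given values on the unknown edges
-/

set_option autoImplicit false
set_option synthInstance.maxHeartbeats 400000

namespace Pool.Agent.K3h88.LCM

open Finset Quaternion

universe u v

variable {V : Type u} [DecidableEq V]

theorem G_neg_mul (a b : G) : -a * b = -(a * b) := neg_mul a b

theorem G_mul_neg (a b : G) : a * -b = -(a * b) := mul_neg a b

theorem G_inv_neg (a : G) : (-a)⁻¹ = -a⁻¹ := by
  apply inv_eq_of_mul_eq_one_right
  rw [G_neg_mul, G_mul_neg, neg_neg, mul_inv_cancel]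

open Classical in
/-- the cochain which is `g` on the boundary, `x` on the unknown edges and `1` elsewhere -/
noncomputable def coch {H : Type v} [Group H] {F : Finset (Finset V)} {n k : ℕ}
    {ρ : Fin k → Finset V} {p : V → V} (S : SD F n k ρ p) (g : V → V → H) (x : Fin n → H)
    (a b : V) : H :=
  if ({a, b} : Finset V) ∈ faces (tets F 1) then g a b
  else if h : ∃ i, S.e i = {a, b} then
    (if WellOrderingRel a b then x h.choose else (x h.choose)⁻¹)
  else 1

section

variable {H : Type v} [Group H] {F : Finset (Finset V)} {n k : ℕ}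
    {ρ : Fin k → Finset V} {p : V → V} (S : SD F n k ρ p) (g : V → V → H) (x : Fin n → H)

theorem coch_bd {a b : V} (h : ({a, b} : Finset V) ∈ faces (tets F 1)) :
    coch S g x a b = g a b := by
  unfold coch
  rw [if_pos h]

theorem e_not_bd (i : Fin n) : S.e i ∉ faces (tets F 1) :=
  (mem_inn.1 ((S.emem _).1 ⟨i, rfl⟩).1).2.1

theorem e_card (i : Fin n) : (S.e i).card = 2 :=
  (mem_inn.1 ((S.emem _).1 ⟨i, rfl⟩).1).2.2

open Classical in
theorem coch_e {a b : V} {i : Fin n} (h : S.e i = {a, b}) :
    coch S g x a b = if WellOrderingRel a b then x i else (x i)⁻¹ := by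
  have h1 : ({a, b} : Finset V) ∉ faces (tets F 1) := h ▸ e_not_bd S i
  have h2 : ∃ i, S.e i = {a, b} := ⟨i, h⟩
  have h3 : h2.choose = i := S.einj (h2.choose_spec.trans h.symm)
  unfold coch
  rw [if_neg h1, dif_pos h2, h3]

theorem coch_else {a b : V} (h : ({a, b} : Finset V) ∉ faces (tets F 1))
    (h' : ∀ i, S.e i ≠ {a, b}) : coch S g x a b = 1 := by
  have h2 : ¬ ∃ i, S.e i = {a, b} := by rintro ⟨i, hi⟩; exact h' i hi
  unfold coch
  rw [if_neg h, dif_neg h2]

theorem coch_self (hg : ∀ a : V, {a} ∈ faces (tets F 1) → g a a = 1) (a : V) :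
    coch S g x a a = 1 := by
  have h0 : ({a, a} : Finset V) = {a} := by simp
  by_cases h : ({a, a} : Finset V) ∈ faces (tets F 1)
  · rw [coch_bd S g x h]
    rw [h0] at h
    exact hg a h
  · refine coch_else S g x h fun i hi => ?_
    have := e_card S i
    rw [hi, h0, card_singleton] at this
    omega

theorem coch_inv (hg : ∀ a b : V, ({a, b} : Finset V) ∈ faces (tets F 1) → g b a = (g a b)⁻¹)
    (a b : V) (hab : a ≠ b) : coch S g x b a = (coch S g x a b)⁻¹ := by
  classical
  have hp : ({b, a} : Finset V) = {a, b} := pair_comm b a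
  by_cases h : ({a, b} : Finset V) ∈ faces (tets F 1)
  · rw [coch_bd S g x h, coch_bd S g x (hp ▸ h), hg a b h]
  · by_cases h2 : ∃ i, S.e i = {a, b}
    · obtain ⟨i, hi⟩ := h2
      rw [coch_e S g x hi, coch_e S g x (hi.trans hp.symm)]
      rcases trichotomous_of WellOrderingRel a b with h3 | h3 | h3
      · have h4 : ¬ WellOrderingRel b a := asymm_of WellOrderingRel h3
        rw [if_pos h3, if_neg h4]
      · exact absurd h3 hab
      · have h4 : ¬ WellOrderingRel a b := asymm_of WellOrderingRel h3
        rw [if_pos h3, if_neg h4, inv_inv]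
    · have h3 : ∀ i, S.e i ≠ {a, b} := fun i hi => h2 ⟨i, hi⟩
      rw [coch_else S g x h h3, coch_else S g x (hp ▸ h) (fun i hi => h3 i (hi.trans hp)), inv_one]

end

section par

variable {F : Finset (Finset V)} {n k : ℕ} {ρ : Fin k → Finset V} {p : V → V}
  (S : SD F n k ρ p) (g : V → V → G) (x : Fin n → G)

theorem coch_update (i : Fin n) (a b : V) :
    coch S g (Function.update x i (-(x i))) a b =
      if S.e i = {a, b} then -(coch S g x a b) else coch S g x a b := by
  classical
  by_cases h : ({a, b} : Finset V) ∈ faces (tets F 1)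
  · have h1 : S.e i ≠ {a, b} := fun hi => e_not_bd S i (hi ▸ h)
    rw [if_neg h1, coch_bd S g _ h, coch_bd S g _ h]
  · by_cases h2 : ∃ j, S.e j = {a, b}
    · obtain ⟨j, hj⟩ := h2
      rw [coch_e S g _ hj, coch_e S g _ hj]
      by_cases hij : j = i
      · subst hij
        rw [if_pos hj, Function.update_self]
        split_ifs
        · rfl
        · exact G_inv_neg _
      · have h1 : S.e i ≠ {a, b} := fun hi => hij (S.einj (hj.trans hi.symm))
        rw [if_neg h1, Function.update_of_ne hij]
    · have h3 : ∀ i, S.e i ≠ {a, b} := fun i hi => h2 ⟨i, hi⟩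
      rw [if_neg (h3 i), coch_else S g _ h h3, coch_else S g _ h h3]

theorem coch_cont (a b : V) : Continuous (fun x : Fin n → G => coch S g x a b) := by
  classical
  by_cases h : ({a, b} : Finset V) ∈ faces (tets F 1)
  · simp only [coch_bd S g _ h]
    exact continuous_const
  · by_cases h2 : ∃ j, S.e j = {a, b}
    · obtain ⟨j, hj⟩ := h2
      simp only [coch_e S g _ hj]
      split_ifs
      · exact continuous_apply j
      · exact (continuous_apply j).inv
    · have h3 : ∀ i, S.e i ≠ {a, b} := fun i hi => h2 ⟨i, hi⟩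
      simp only [coch_else S g _ h h3]
      exact continuous_const

/-- the words of the triangles -/
noncomputable def wrd (x : Fin n → G) (j : Fin n) : G :=
  coch S g x (S.A j) (S.B j) * coch S g x (S.B j) (S.C j) * coch S g x (S.C j) (S.A j)

/-- the incidence matrix -/
def mat : Matrix (Fin n) (Fin n) (ZMod 2) :=
  fun j i => if S.e i ⊆ {S.A j, S.B j, S.C j} then 1 else 0

theorem wrd_cont : Continuous (fun x : Fin n → G => wrd S g x) := by
  refine continuous_pi fun j => ?_
  exact ((coch_cont S g _ _).mul (coch_cont S g _ _)).mul (coch_cont S g _ _)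

theorem pair_sub {a b c : V} (hab : a ≠ b) (hbc : b ≠ c) (hca : c ≠ a) {s : Finset V}
    (hs : s.card = 2) : s ⊆ {a, b, c} ↔ s = {a, b} ∨ s = {b, c} ∨ s = {c, a} := by
  obtain ⟨u, v, huv, rfl⟩ := card_eq_two.1 hs
  constructor
  · intro h
    have hu : u ∈ ({a, b, c} : Finset V) := h (by simp)
    have hv : v ∈ ({a, b, c} : Finset V) := h (by simp)
    simp only [mem_insert, mem_singleton] at hu hv
    rcases hu with rfl | rfl | rfl <;> rcases hv with rfl | rfl | rfl <;>
      first
      | exact absurd rfl huv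
      | exact Or.inl rfl
      | exact Or.inr (Or.inl rfl)
      | exact Or.inr (Or.inr rfl)
      | exact Or.inl (pair_comm _ _)
      | exact Or.inr (Or.inl (pair_comm _ _))
      | exact Or.inr (Or.inr (pair_comm _ _))
  · rintro (h | h | h) <;> rw [h] <;> intro z hz <;>
      simp only [mem_insert, mem_singleton] at hz ⊢ <;> tauto

theorem pair_ne {a b c : V} (hab : a ≠ b) (hca : c ≠ a) :
    ({a, b} : Finset V) ≠ {b, c} := by
  intro h
  have : a ∈ ({b, c} : Finset V) := by rw [← h]; simp
  simp only [mem_insert, mem_singleton] at this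
  rcases this with h | h
  · exact hab h
  · exact hca h.symm

theorem wrd_update (x : Fin n → G) (i j : Fin n) :
    wrd S g (Function.update x i (-(x i))) j =
      if mat S j i = 1 then -(wrd S g x j) else wrd S g x j := by
  have hAB := S.AB j
  have hBC := S.BC j
  have hCA := S.CA j
  have n1 : ({S.A j, S.B j} : Finset V) ≠ {S.B j, S.C j} := pair_ne hAB hCA
  have n2 : ({S.B j, S.C j} : Finset V) ≠ {S.C j, S.A j} := pair_ne hBC hAB
  have n3 : ({S.C j, S.A j} : Finset V) ≠ {S.A j, S.B j} := pair_ne hCA hBC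
  have hm : mat S j i = 1 ↔ S.e i ⊆ {S.A j, S.B j, S.C j} := by
    unfold mat
    split_ifs with h
    · simp [h]
    · simp [h]
  rw [pair_sub hAB hBC hCA (e_card S i)] at hm
  unfold wrd
  rw [coch_update, coch_update, coch_update]
  by_cases h1 : S.e i = {S.A j, S.B j}
  · have h2 : S.e i ≠ {S.B j, S.C j} := fun h => n1 (h1.symm.trans h)
    have h3 : S.e i ≠ {S.C j, S.A j} := fun h => n3 (h.symm.trans h1)
    rw [if_pos h1, if_neg h2, if_neg h3, if_pos (hm.2 (Or.inl h1)), G_neg_mul, G_neg_mul]
  · by_cases h2 : S.e i = {S.B j, S.C j}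
    · have h3 : S.e i ≠ {S.C j, S.A j} := fun h => n2 (h2.symm.trans h)
      rw [if_neg h1, if_pos h2, if_neg h3, if_pos (hm.2 (Or.inr (Or.inl h2))), G_mul_neg, G_neg_mul]
    · by_cases h3 : S.e i = {S.C j, S.A j}
      · rw [if_neg h1, if_neg h2, if_pos h3, if_pos (hm.2 (Or.inr (Or.inr h3))), G_mul_neg]
      · have h4 : ¬ mat S j i = 1 := by
          intro h
          rcases hm.1 h with h | h | h
          · exact h1 h
          · exact h2 h
          · exact h3 h
        rw [if_neg h1, if_neg h2, if_neg h3, if_neg h4]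

end par

end Pool.Agent.K3h88.LCM
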