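import Pool.Agent.K3h88.LCM.Main
import Pool.Agent.K3h24.LCM.L3
import Pool.Agent.K3h24.LCM.L8
import Pool.Agent.K3h51.LCM.L2
import Pool.Agent.K3h51.LCM.L4
import Pool.Agent.K3h51.LCM.L5
import Pool.Agent.K3h51.LCM.L6
import Pool.Agent.K3h83.LCM.L9

/-!
# Locally constructible complexes: the final theorem for cocycles
-/

set_option autoImplicit false
set_option synthInstance.maxHeartbeats 400000

namespace Pool.Agent.K3h88.LCM

open Finset Quaternion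

universe u

variable {V : Type u} [DecidableEq V]

/-- locally constructible pure 4-dimensional complexes, given by their facets -/
def LCon (F : Finset (Finset V)) : Prop :=
  F.Nonempty ∧ (∀ A ∈ F, A.card = 5) ∧
  (∀ τ : Finset V, τ.card = 4 → (F.filter (fun A => τ ⊆ A)).card ≤ 2) ∧
  ∃ (T : Finset (Finset V)) (k : ℕ) (σ : Fin k → Finset V),
    (T ⊆ tets F 2 ∧ T.card + 1 = F.card ∧ ∀ A ∈ F, ∀ B ∈ F, Same F T ∅ A B) ∧
    (Function.Injective σ ∧ (∀ i, σ i ∈ tets F 2 ∧ σ i ∉ T) ∧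
      ∀ τ ∈ tets F 2, τ ∈ T ∨ ∃ i, σ i = τ) ∧
    (∀ i, ∃ ρ ⊆ σ i, ρ.card = 3 ∧ ∀ A ∈ F, ∀ B ∈ F, σ i ⊆ A → σ i ⊆ B →
      Same F (T ∪ (univ.filter (fun j => j < i)).image σ) ρ A B) ∧
    ∀ s : Finset V, s.Nonempty → ∀ A ∈ F, ∀ B ∈ F, s ⊆ A → s ⊆ B → Same F (tets F 2) s A B

theorem LCon.data {F : Finset (Finset V)} (h : LCon F) :
    ∃ (T : Finset (Finset V)) (k : ℕ) (σ ρ : Fin k → Finset V), GD F T k σ ρ := by
  obtain ⟨h1, h2, h3, T, k, σ, ⟨t1, t2, t3⟩, ⟨s1, s2, s3⟩, h4, h5⟩ := h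
  choose ρ r1 r2 r3 using h4
  exact ⟨T, k, σ, ρ, ⟨h1, h2, h3, t1, t2, t3, s1, fun i => (s2 i).1, fun i => (s2 i).2, s3, r1, r2,
    r3, h5⟩⟩

/-- cocycles with values in the unit quaternions on the boundary are trivial -/
theorem final {F : Finset (Finset V)} (h : LCon F) (hχ : euler F - euler (tets F 1) = 1)
    (hne : (tets F 1).Nonempty) (hc : BConn F) (g : V → V → G)
    (hg : ∀ τ ∈ tets F 1, Rel g τ) :
    ∃ h : V → G, ∀ τ ∈ tets F 1, ∀ a ∈ τ, ∀ b ∈ τ, g a b = (h a)⁻¹ * h b := by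
  obtain ⟨T, k, σ, ρ, D⟩ := h.data
  exact main K3h51.LCM.l2 K3h24.LCM.l3 K3h51.LCM.l4 K3h51.LCM.l5 K3h51.LCM.l6
    (K3h24.LCM.l8 K3h83.LCM.l9) D hχ hne hc g hg

end Pool.Agent.K3h88.LCM
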