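import Pool.Agent.K3h88.LCM.Final
import Pool.Agent.K3h18.LCM.Top

/-!
# Locally constructible complexes: the final theorem for the fundamental group of the boundary
-/

set_option autoImplicit false
set_option synthInstance.maxHeartbeats 400000

namespace Pool.Agent.K3h88.LCM

open Finset Quaternion

/-- homomorphisms from the fundamental group of the boundary to the unit quaternions are trivial -/
theorem finalTop {V : Type} [DecidableEq V] {F : Finset (Finset V)} (h : LCon F)
    (hχ : euler F - euler (tets F 1) = 1) (hc : BConn F) (x : Rz (tets F 1))
    (φ : FundamentalGroup (Rz (tets F 1)) x →* G)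
    (γ : FundamentalGroup (Rz (tets F 1)) x) : φ γ = 1 := by
  have hne : (tets F 1).Nonempty := by
    obtain ⟨-, s, hs, -⟩ := x.2
    exact ⟨s, hs⟩
  exact K3h18.LCM.top V (tets F 1) G hc (fun g hg => final h hχ hne hc g hg) x φ γ

end Pool.Agent.K3h88.LCM
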