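import Pool.Agent.K3h88.LCM.Co

/-!
# Cocycles on the boundary extend and are trivial
-/

set_option autoImplicit false
set_option synthInstance.maxHeartbeats 400000

namespace Pool.Agent.K3h88.LCM

open Finset Quaternion

universe u v

variable {V : Type u} [DecidableEq V]

/-- the boundary is connected -/
def BConn (F : Finset (Finset V)) : Prop :=
  ∀ τ ∈ tets F 1, ∀ τ' ∈ tets F 1,
    Relation.ReflTransGen (fun s t => s ∈ tets F 1 ∧ t ∈ tets F 1 ∧ (s ∩ t).Nonempty) τ τ'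

theorem bd_const {F : Finset (Finset V)} (hc : BConn F) {α : Type v} {h : V → α}
    (hh : ∀ τ ∈ tets F 1, ∀ a ∈ τ, ∀ b ∈ τ, h a = h b) :
    ∀ τ ∈ tets F 1, ∀ τ' ∈ tets F 1, ∀ a ∈ τ, ∀ b ∈ τ', h a = h b := by
  intro τ hτ τ' hτ'
  have h1 := hc τ hτ τ' hτ'
  have key : ∀ t, Relation.ReflTransGen
      (fun s t => s ∈ tets F 1 ∧ t ∈ tets F 1 ∧ (s ∩ t).Nonempty) τ t →
      t ∈ tets F 1 ∧ ∀ a ∈ τ, ∀ b ∈ t, h a = h b := by
    intro t ht
    induction ht with
    | refl => exact ⟨hτ, hh τ hτ⟩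
    | tail _ h2 ih =>
      obtain ⟨h3, h4, z, hz⟩ := h2
      rw [mem_inter] at hz
      refine ⟨h4, fun a ha b hb => ?_⟩
      exact (ih.2 a ha z hz.1).trans (hh _ h4 z hz.2 b hb)
  exact (key τ' h1).2

theorem pair_mem_faces {F : Finset (Finset V)} {A : Finset V} (hA : A ∈ F) {a b : V} (ha : a ∈ A)
    (hb : b ∈ A) : ({a, b} : Finset V) ∈ faces F := by
  rw [mem_faces]
  refine ⟨⟨a, by simp⟩, A, hA, ?_⟩
  intro z hz
  simp only [mem_insert, mem_singleton] at hz
  rcases hz with rfl | rfl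
  · exact ha
  · exact hb

theorem tri_cases {F : Finset (Finset V)} {n k : ℕ} {ρ : Fin k → Finset V} {p : V → V}
    (S : SD F n k ρ p) {H : Type v} [Group H] (g : V → V → H)
    (hg : ∀ τ ∈ tets F 1, Rel g τ) (x : Fin n → H)
    (hx : ∀ j, coch S g x (S.A j) (S.B j) * coch S g x (S.B j) (S.C j) *
      coch S g x (S.C j) (S.A j) = 1) :
    ∀ t ∈ faces F, t.card = 3 → (∀ j, ρ j ≠ t) → Rel (coch S g x) t := by
  have g1 : ∀ a : V, {a} ∈ faces (tets F 1) → g a a = 1 := by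
    intro a ha
    obtain ⟨-, τ, hτ, h1⟩ := mem_faces.1 ha
    exact (hg τ hτ).one (h1 (mem_singleton_self a))
  have g2 : ∀ a b : V, ({a, b} : Finset V) ∈ faces (tets F 1) → g b a = (g a b)⁻¹ := by
    intro a b hab
    obtain ⟨-, τ, hτ, h1⟩ := mem_faces.1 hab
    exact (hg τ hτ).inv (h1 (by simp)) (h1 (by simp))
  intro t ht ht3 htρ
  by_cases hb : t ∈ faces (tets F 1)
  · obtain ⟨-, τ, hτ, h1⟩ := mem_faces.1 hb
    intro a ha b hb' c hc
    rw [coch_bd S g x (pair_mem_faces hτ (h1 ha) (h1 hb')),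
      coch_bd S g x (pair_mem_faces hτ (h1 hb') (h1 hc)),
      coch_bd S g x (pair_mem_faces hτ (h1 ha) (h1 hc))]
    exact hg τ hτ a (h1 ha) b (h1 hb') c (h1 hc)
  · have h1 : t ∈ inn F 3 := mem_inn.2 ⟨ht, hb, ht3⟩
    obtain ⟨j, hj⟩ := (S.tmem t).2 ⟨h1, htρ⟩
    rw [← hj]
    refine rel_triangle (fun u _ => coch_self S g x g1 u) (coch_inv S g x g2 _ _ (S.AB j))
      (coch_inv S g x g2 _ _ (S.BC j)) (coch_inv S g x g2 _ _ (S.CA j)) (hx j)

/-- the matrix of the system is invertible -/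
theorem det_ne (h2 : StmL2.{u, 0}) (h4 : StmL4.{u, 0}) {F T : Finset (Finset V)} {k : ℕ}
    {σ ρ : Fin k → Finset V} (D : GD F T k σ ρ) {p : V → V} {d : V → ℕ} (hp : Par F p d)
    (h3 : ∀ i j, ρ j ⊆ σ i → i ≤ j) (hne : (tets F 1).Nonempty) (hc : BConn F) {n : ℕ}
    (S : SD F n k ρ p) : (mat S).det ≠ 0 := by
  classical
  intro hdet
  obtain ⟨y, hy0, hy⟩ := Matrix.exists_mulVec_eq_zero_iff.2 hdet
  apply hy0
  let z : Fin n → Multiplicative (ZMod 2) := fun i => Multiplicative.ofAdd (y i)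
  let g : V → V → Multiplicative (ZMod 2) := fun _ _ => 1
  have hg : ∀ τ ∈ tets F 1, Rel g τ := fun τ _ a _ b _ c _ => mul_one _
  have hinv : ∀ w : Multiplicative (ZMod 2), w⁻¹ = w := by
    intro w
    apply Multiplicative.toAdd.injective
    rw [toAdd_inv]
    exact ZMod.neg_eq_self_mod_two _
  have hval : ∀ (i : Fin n) (a b : V), S.e i = {a, b} → coch S g z a b = z i := by
    intro i a b h
    rw [coch_e S g z h]
    split_ifs
    · rfl
    · exact hinv _
  have hval0 : ∀ a b : V, (∀ i, S.e i ≠ {a, b}) → coch S g z a b = 1 := by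
    intro a b h
    by_cases hb : ({a, b} : Finset V) ∈ faces (tets F 1)
    · rw [coch_bd S g z hb]
    · exact coch_else S g z hb h
  -- the value on a pair as a sum
  have hsum : ∀ a b : V, Multiplicative.toAdd (coch S g z a b) =
      ∑ i, if S.e i = {a, b} then y i else 0 := by
    intro a b
    by_cases h : ∃ i, S.e i = {a, b}
    · obtain ⟨i, hi⟩ := h
      rw [hval i a b hi, Finset.sum_eq_single i]
      · rw [if_pos hi]; rfl
      · intro j _ hj
        rw [if_neg]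
        intro hj'
        exact hj (S.einj (hj'.trans hi.symm))
      · intro h; exact absurd (mem_univ i) h
    · have h' : ∀ i, S.e i ≠ {a, b} := fun i hi => h ⟨i, hi⟩
      rw [hval0 a b h', Finset.sum_eq_zero]
      · rfl
      · intro i _
        rw [if_neg (h' i)]
  have hx : ∀ j, coch S g z (S.A j) (S.B j) * coch S g z (S.B j) (S.C j) *
      coch S g z (S.C j) (S.A j) = 1 := by
    intro j
    apply Multiplicative.toAdd.injective
    rw [toAdd_mul, toAdd_mul, hsum, hsum, hsum, ← Finset.sum_add_distrib,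
      ← Finset.sum_add_distrib]
    have h5 : ∑ i, mat S j i * y i = 0 := congrFun hy j
    rw [toAdd_one]
    refine Eq.trans (Finset.sum_congr rfl fun i _ => ?_) h5
    have hAB := S.AB j
    have hBC := S.BC j
    have hCA := S.CA j
    have n1 : ({S.A j, S.B j} : Finset V) ≠ {S.B j, S.C j} := pair_ne hAB hCA
    have n2 : ({S.B j, S.C j} : Finset V) ≠ {S.C j, S.A j} := pair_ne hBC hAB
    have n3 : ({S.C j, S.A j} : Finset V) ≠ {S.A j, S.B j} := pair_ne hCA hBC
    have hm := pair_sub hAB hBC hCA (e_card S i)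
    by_cases e1 : S.e i = {S.A j, S.B j}
    · have e2 : S.e i ≠ {S.B j, S.C j} := fun h => n1 (e1.symm.trans h)
      have e3 : S.e i ≠ {S.C j, S.A j} := fun h => n3 (h.symm.trans e1)
      have e4 : mat S j i = 1 := if_pos (hm.2 (Or.inl e1))
      rw [if_pos e1, if_neg e2, if_neg e3, e4]; ring
    · by_cases e2 : S.e i = {S.B j, S.C j}
      · have e3 : S.e i ≠ {S.C j, S.A j} := fun h => n2 (e2.symm.trans h)
        have e4 : mat S j i = 1 := if_pos (hm.2 (Or.inr (Or.inl e2)))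
        rw [if_neg e1, if_pos e2, if_neg e3, e4]; ring
      · by_cases e3 : S.e i = {S.C j, S.A j}
        · have e4 : mat S j i = 1 := if_pos (hm.2 (Or.inr (Or.inr e3)))
          rw [if_neg e1, if_neg e2, if_pos e3, e4]; ring
        · have e4 : mat S j i = 0 := by
            refine if_neg fun h => ?_
            rcases hm.1 h with h | h | h
            · exact e1 h
            · exact e2 h
            · exact e3 h
          rw [if_neg e1, if_neg e2, if_neg e3, e4]; ring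
  have hrel := h4 V F T k σ ρ D h3 _ (coch S g z) (tri_cases S g hg z hx)
  obtain ⟨h, hh⟩ := h2 V F T k σ ρ D _ (coch S g z) hrel
  -- `h` is constant on the boundary
  have hb : ∀ τ ∈ tets F 1, ∀ a ∈ τ, ∀ b ∈ τ, h a = h b := by
    intro τ hτ a ha b hb
    obtain ⟨-, A, hA, hτA⟩ := mem_faces.1 (mem_tets.1 hτ).1
    have h6 := hh A hA a (hτA ha) b (hτA hb)
    rw [coch_bd S g z (pair_mem_faces hτ ha hb)] at h6
    have h7 : (h a)⁻¹ * h b = 1 := h6.symm
    exact (inv_mul_eq_one.1 h7)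
  obtain ⟨τ0, hτ0⟩ := hne
  have hτ0ne : τ0.Nonempty := (mem_faces.1 (mem_tets.1 hτ0).1).1
  obtain ⟨a0, ha0⟩ := hτ0ne
  have hall : ∀ m : ℕ, ∀ v : V, d v = m → {v} ∈ faces F → h v = h a0 := by
    intro m
    induction m using Nat.strong_induction_on with
    | _ m ih =>
      intro v hv hvF
      by_cases hvb : {v} ∈ faces (tets F 1)
      · obtain ⟨-, τ, hτ, h6⟩ := mem_faces.1 hvb
        exact bd_const hc hb τ hτ τ0 hτ0 v (h6 (mem_singleton_self v)) a0 ha0
      · obtain ⟨q1, q2, q3⟩ := hp v hvF hvb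
        have q4 : {p v} ∈ faces F := faces_mono q1 (singleton_nonempty _) (by simp)
        have q5 := ih (d (p v)) (hv ▸ q3) (p v) rfl q4
        rw [← q5]
        obtain ⟨-, A, hA, hsub⟩ := mem_faces.1 q1
        have q6 := hh A hA v (hsub (by simp)) (p v) (hsub (by simp))
        have q7 : coch S g z v (p v) = 1 := by
          refine hval0 _ _ fun i hi => ?_
          have q8 := ((S.emem _).1 ⟨i, rfl⟩).2
          apply q8
          rw [hi]
          exact mem_image_of_mem _ (mem_Vi.2 ⟨hvF, hvb⟩)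
        rw [q7] at q6
        exact inv_mul_eq_one.1 q6.symm
  funext i
  have h8 := mem_inn.1 ((S.emem _).1 ⟨i, rfl⟩).1
  obtain ⟨a, b, hab, he⟩ := card_eq_two.1 h8.2.2
  obtain ⟨-, A, hA, hsub⟩ := mem_faces.1 h8.1
  have ha : a ∈ A := hsub (by rw [he]; simp)
  have hb' : b ∈ A := hsub (by rw [he]; simp)
  have fa : {a} ∈ faces F := mem_faces.2 ⟨singleton_nonempty a, A, hA, by simpa using ha⟩
  have fb : {b} ∈ faces F := mem_faces.2 ⟨singleton_nonempty b, A, hA, by simpa using hb'⟩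
  have h9 := hh A hA a ha b hb'
  rw [hval i a b he, hall _ a rfl fa, hall _ b rfl fb, inv_mul_cancel] at h9
  have h10 := congrArg Multiplicative.toAdd h9
  exact h10

/-- **Main theorem**, from the bricks. -/
theorem main (h2 : StmL2.{u, 0}) (h3 : StmL3.{u}) (h4 : StmL4.{u, 0}) (h5 : StmL5.{u})
    (h6 : StmL6.{u}) (h8 : StmL8) {F T : Finset (Finset V)} {k : ℕ}
    {σ ρ : Fin k → Finset V} (D : GD F T k σ ρ) (hχ : euler F - euler (tets F 1) = 1)
    (hne : (tets F 1).Nonempty) (hc : BConn F) (g : V → V → G)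
    (hg : ∀ τ ∈ tets F 1, Rel g τ) :
    ∃ h : V → G, ∀ τ ∈ tets F 1, ∀ a ∈ τ, ∀ b ∈ τ, g a b = (h a)⁻¹ * h b := by
  obtain ⟨p, d, hp⟩ := h6 V F T k σ ρ D hne
  obtain ⟨r1, r2⟩ := h3 V F T k σ ρ D
  obtain ⟨n, ⟨S⟩⟩ := exists_SD D hp (h5 V F T k σ ρ D hχ) r1 r2
  have hdet := det_ne h2 h4 D hp r1 hne hc S
  obtain ⟨x, hx⟩ := h8 n (mat S) hdet (fun x => wrd S g x) (wrd_cont S g)
    (fun x i j => wrd_update S g x i j)
  have hrel := h4 V F T k σ ρ D r1 _ (coch S g x) (tri_cases S g hg x hx)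
  obtain ⟨h, hh⟩ := h2 V F T k σ ρ D _ (coch S g x) hrel
  refine ⟨h, fun τ hτ a ha b hb => ?_⟩
  obtain ⟨-, A, hA, hτA⟩ := mem_faces.1 (mem_tets.1 hτ).1
  rw [← hh A hA a (hτA ha) b (hτA hb), coch_bd S g x (pair_mem_faces hτ ha hb)]

end Pool.Agent.K3h88.LCM
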