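import Pool.Agent.K3h88.LCM.Bries

/-!
# The group read off the Kirby diagram of Mazur's manifold has a nontrivial representation
-/

set_option autoImplicit false
set_option synthInstance.maxHeartbeats 400000

namespace Pool.Agent.K3h88.LCM

open Quaternion

/-- the relators -/
def mrels : Set (FreeGroup (Fin 7)) :=
  let t := FreeGroup.of 0
  let a := FreeGroup.of 1
  let a' := FreeGroup.of 2
  let b := FreeGroup.of 3
  let b' := FreeGroup.of 4
  let c := FreeGroup.of 5
  let c' := FreeGroup.of 6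
  {t * b * t⁻¹ * a'⁻¹, t * b' * t⁻¹ * c⁻¹, t * a * t⁻¹ * c'⁻¹,
    c'⁻¹ * a * c' * a'⁻¹, b * c * b⁻¹ * c'⁻¹, c * b * c⁻¹ * b'⁻¹,
    a * b * b'⁻¹, c' * t * c⁻¹ * t⁻¹ * b⁻¹ * t * a}

section words

variable {G : Type} [Group G] {x u h k : G}

theorem word_rels (hk : h * k = 1) (hc : ∀ w : G, w * h = h * w) (h1 : x * x = k)
    (h2 : u * (u * (u * (u * (u * (u * u))))) = k * k)
    (h3 : (u * x) ^ 5 = k ^ 4) :
    let t := h * (u * (u * x))
    let a := h * (x * (u * u))
    let b := h * (u * (u * (u * (x * u⁻¹))))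
    let b' := h * (h * (x * (u * (u * (u * (u * (u * (x * u⁻¹))))))))
    let c := x * (u⁻¹ * (x * (u⁻¹ * u⁻¹)))
    let c' := h * (u * (u * (u * (u * (x * (u⁻¹ * u⁻¹))))))
    t * b' = c * t ∧ t * a = c' * t ∧ a * c' * t = c' * t * b ∧ b * c = c' * b ∧ c * b = b' * c ∧
      a * b = b' ∧ b * (t * c) = (t * a) * (c' * t) := by
  have hk' : k * h = 1 := by rw [hc, hk]
  have hkc : ∀ w : G, w * k = k * w := by
    intro w
    have e : k = h⁻¹ := eq_inv_of_mul_eq_one_right hk
    have h5 := hc w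
    rw [e]
    have : Commute w h := h5
    exact this.inv_right
  -- moving `h` and `k` to the left
  have xh : ∀ w, x * (h * w) = h * (x * w) := fun w => by rw [← mul_assoc, hc, mul_assoc]
  have uh : ∀ w, u * (h * w) = h * (u * w) := fun w => by rw [← mul_assoc, hc, mul_assoc]
  have xk : ∀ w, x * (k * w) = k * (x * w) := fun w => by rw [← mul_assoc, hkc, mul_assoc]
  have uk : ∀ w, u * (k * w) = k * (u * w) := fun w => by rw [← mul_assoc, hkc, mul_assoc]
  have xh0 : x * h = h * x := hc x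
  have uh0 : u * h = h * u := hc u
  have xk0 : x * k = k * x := hkc x
  have uk0 : u * k = k * u := hkc u
  have hkw : ∀ w, h * (k * w) = w := fun w => by rw [← mul_assoc, hk, one_mul]
  have khw : ∀ w, k * (h * w) = w := fun w => by rw [← mul_assoc, hk', one_mul]
  have xx : ∀ w, x * (x * w) = k * w := fun w => by rw [← mul_assoc, h1]
  have u7 : ∀ w, u * (u * (u * (u * (u * (u * (u * w)))))) = k * (k * w) := fun w => by
    have := congrArg (fun z => z * w) h2
    simpa only [mul_assoc] using this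
  have hui : u⁻¹ = h * (h * (u * (u * (u * (u * (u * u)))))) := by
    rw [inv_eq_iff_mul_eq_one]
    rw [uh, uh, h2, hkw, hk]
  -- the relation from the fifth power
  have key : x * (u * (u * (u * (u * (u * (u * (x * (u * (u * (u * (u * (u * (u * x))))))))))))) =
      k * (k * (k * (u * (x * (u * (x * u)))))) := by
    have e5 : u * (x * (u * (x * (u * (x * (u * (x * (u * x)))))))) = k * (k * (k * k)) := by
      have e := h3
      simp only [pow_succ, pow_zero, one_mul, mul_assoc] at e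
      exact e
    have e6 : ∀ w, u * (x * (u * (x * (u * (x * (u * (x * (u * (x * w))))))))) =
        k * (k * (k * (k * w))) := fun w => by
      have := congrArg (fun z => z * w) e5
      simpa only [mul_assoc] using this
    -- multiply the left side by `u x u x` on the left and simplify
    have l1 : u * (x * (u * (x * (x * (u * (u * (u * (u * (u * (u * (x * (u * (u * (u * (u * (u *
        (u * x))))))))))))))))) = k * (k * (k * (k * (k * (k * x))))) := by
      simp only [xx, uk, xk, u7]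
    have l2 : u * (x * (u * (x * (k * (k * (k * (u * (x * (u * (x * u)))))))))) =
        k * (k * (k * (k * (k * (k * x))))) := by
      have l3 : u * (x * (u * (x * (u * (x * (u * (x * u))))))) = k * (k * (k * x)) := by
        have l7 : x * (h * x) = 1 := by rw [xh, h1, hk]
        have l8 := e6 (h * x)
        rw [l7] at l8
        simp only [mul_one] at l8
        have l9 : k * (k * (k * (k * (h * x)))) = k * (k * (k * x)) := by rw [khw]
        rw [l9] at l8
        exact l8
      simp only [xk, uk, l3]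
    have l10 : u * (x * (u * (x * (x * (u * (u * (u * (u * (u * (u * (x * (u * (u * (u * (u * (u *
        (u * x))))))))))))))))) =
        u * (x * (u * (x * (k * (k * (k * (u * (x * (u * (x * u)))))))))) := by
      rw [l1, l2]
    exact mul_left_cancel (mul_left_cancel (mul_left_cancel (mul_left_cancel l10)))
  have key' : ∀ w, x * (u * (u * (u * (u * (u * (u * (x * (u * (u * (u * (u * (u * (u * (x *
      w)))))))))))))) = k * (k * (k * (u * (x * (u * (x * (u * w))))))) := fun w => by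
    have := congrArg (fun z => z * w) key
    simpa only [mul_assoc] using this
  intro t a b b' c c'
  refine ⟨?_, ?_, ?_, ?_, ?_, ?_, ?_⟩ <;>
    simp only [t, a, b, b', c, c', hui, mul_assoc, xh, uh, xk, uk, uk0, hkw, xx, u7, h2, h1, hk,
      key', mul_one]

end words

/-- The generators are sent to words in the generators of the Brieskorn group. -/
theorem maz_rep : ∃ ψ : PresentedGroup mrels →* Metric.sphere (0 : ℍ[ℝ]) 1,
    ψ (PresentedGroup.of 1) ≠ 1 := by
  obtain ⟨φ, hφ⟩ := rep57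
  -- the Brieskorn group and its relations
  obtain ⟨X, hX⟩ : ∃ X : PresentedGroup (brels 5 7), X = PresentedGroup.of 0 := ⟨_, rfl⟩
  obtain ⟨Y, hY⟩ : ∃ Y : PresentedGroup (brels 5 7), Y = PresentedGroup.of 1 := ⟨_, rfl⟩
  obtain ⟨Z, hZ⟩ : ∃ Z : PresentedGroup (brels 5 7), Z = PresentedGroup.of 2 := ⟨_, rfl⟩
  obtain ⟨H, hH⟩ : ∃ H : PresentedGroup (brels 5 7), H = PresentedGroup.of 3 := ⟨_, rfl⟩
  have rel : ∀ w ∈ brels 5 7, (PresentedGroup.mk (brels 5 7) w) = 1 := fun w hw =>
    PresentedGroup.one_of_mem hw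
  have rXH : X * H * X⁻¹ * H⁻¹ = 1 := by
    have := rel (FreeGroup.of 0 * FreeGroup.of 3 * (FreeGroup.of 0)⁻¹ * (FreeGroup.of 3)⁻¹)
      (by simp [brels])
    rw [hX, hH]
    simp only [map_mul, map_inv, map_pow] at this
    exact this
  have rYH : Y * H * Y⁻¹ * H⁻¹ = 1 := by
    have := rel (FreeGroup.of 1 * FreeGroup.of 3 * (FreeGroup.of 1)⁻¹ * (FreeGroup.of 3)⁻¹)
      (by simp [brels])
    rw [hY, hH]
    simp only [map_mul, map_inv, map_pow] at this
    exact this
  have rZH : Z * H * Z⁻¹ * H⁻¹ = 1 := by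
    have := rel (FreeGroup.of 2 * FreeGroup.of 3 * (FreeGroup.of 2)⁻¹ * (FreeGroup.of 3)⁻¹)
      (by simp [brels])
    rw [hZ, hH]
    simp only [map_mul, map_inv, map_pow] at this
    exact this
  have rX : X ^ 2 * H = 1 := by
    have := rel (FreeGroup.of 0 ^ 2 * FreeGroup.of 3) (by simp [brels])
    rw [hX, hH]
    simp only [map_mul, map_inv, map_pow] at this
    exact this
  have rY : Y ^ 5 * H⁻¹ = 1 := by
    have := rel (FreeGroup.of 1 ^ 5 * (FreeGroup.of 3)⁻¹) (by simp [brels])
    rw [hY, hH]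
    simp only [map_mul, map_inv, map_pow] at this
    exact this
  have rZ : Z ^ 7 * H⁻¹ ^ 2 = 1 := by
    have := rel (FreeGroup.of 2 ^ 7 * (FreeGroup.of 3)⁻¹ ^ 2) (by simp [brels])
    rw [hZ, hH]
    simp only [map_mul, map_inv, map_pow] at this
    exact this
  have rXYZ : X * Y * Z = 1 := by
    have := rel (FreeGroup.of 0 * FreeGroup.of 1 * FreeGroup.of 2) (by simp [brels])
    rw [hX, hY, hZ]
    simp only [map_mul, map_inv, map_pow] at this
    exact this
  -- `H` is central
  have hc : ∀ w, w * H = H * w := by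
    intro w
    have hw : w ∈ Subgroup.centralizer {H} := by
      have : w ∈ Subgroup.closure (Set.range (PresentedGroup.of (rels := brels 5 7))) := by
        rw [PresentedGroup.closure_range_of]
        trivial
      refine (Subgroup.closure_le (Subgroup.centralizer {H})).2 ?_ this
      rintro _ ⟨i, rfl⟩
      simp only [SetLike.mem_coe, Subgroup.mem_centralizer_singleton_iff]
      fin_cases i
      · have e := mul_inv_eq_one.1 rXH
        have e2 := mul_inv_eq_iff_eq_mul.1 e
        rw [hX] at e2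
        first
        | exact e2
        | exact e2.symm
      · have e := mul_inv_eq_one.1 rYH
        have e2 := mul_inv_eq_iff_eq_mul.1 e
        rw [hY] at e2
        first
        | exact e2
        | exact e2.symm
      · have e := mul_inv_eq_one.1 rZH
        have e2 := mul_inv_eq_iff_eq_mul.1 e
        rw [hZ] at e2
        first
        | exact e2
        | exact e2.symm
      · rw [hH]
        rfl
    have := Subgroup.mem_centralizer_singleton_iff.1 hw
    first
    | exact this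
    | exact this.symm
  have hci : ∀ w, w * H⁻¹ = H⁻¹ * w := fun w => (show Commute w H from hc w).inv_right
  obtain ⟨u, hu⟩ : ∃ u, u = X * Y := ⟨_, rfl⟩
  have hZu : Z = u⁻¹ := by
    rw [hu]
    exact eq_inv_of_mul_eq_one_right rXYZ
  have h1 : X * X = H⁻¹ := by
    rw [← sq]
    exact eq_inv_of_mul_eq_one_left rX
  have h2' : u ^ 7 = H⁻¹ ^ 2 := by
    have e := mul_eq_one_iff_eq_inv.1 rZ
    rw [hZu, inv_pow, inv_inj] at e
    exact e
  have h2 : u * (u * (u * (u * (u * (u * u))))) = H⁻¹ * H⁻¹ := by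
    have e : u * (u * (u * (u * (u * (u * u))))) = u ^ 7 := by
      simp only [pow_succ, pow_zero, one_mul, mul_assoc]
    rw [e, h2', sq]
  have hYu : Y = H * (X * u) := by
    rw [hu, ← mul_assoc X, h1, ← mul_assoc, mul_inv_cancel, one_mul]
  have h3 : (u * X) ^ 5 = H⁻¹ ^ 4 := by
    have hcm : Commute H (X * u) := (show Commute (X * u) H from hc _).symm
    have e1 : H ^ 5 * (X * u) ^ 5 = H := by
      rw [← hcm.mul_pow, ← hYu]
      exact mul_inv_eq_one.1 rY
    have e2 : (X * u) ^ 5 = H⁻¹ ^ 4 := by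
      have e3 : (X * u) ^ 5 = (H ^ 5)⁻¹ * H := eq_inv_mul_of_mul_eq e1
      rw [e3, inv_pow]
      group
    have e4 : (u * X) ^ 5 = X⁻¹ * (X * u) ^ 5 * X := by
      simp only [pow_succ, pow_zero, one_mul]
      group
    rw [e4, e2]
    have e5 : X⁻¹ * H⁻¹ ^ 4 = H⁻¹ ^ 4 * X⁻¹ :=
      ((show Commute X⁻¹ H⁻¹ from hci _).pow_right 4)
    rw [e5, mul_assoc, inv_mul_cancel, mul_one]
  obtain ⟨r1, r2, r3, r4, r5, r6, r7⟩ := word_rels (x := X) (u := u) (h := H) (k := H⁻¹)
    (mul_inv_cancel H) hc h1 h2 h3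
  obtain ⟨t, ht⟩ : ∃ t, t = H * (u * (u * X)) := ⟨_, rfl⟩
  obtain ⟨a, ha⟩ : ∃ a, a = H * (X * (u * u)) := ⟨_, rfl⟩
  obtain ⟨b, hb⟩ : ∃ b, b = H * (u * (u * (u * (X * u⁻¹)))) := ⟨_, rfl⟩
  obtain ⟨b', hb'⟩ : ∃ b', b' = H * (H * (X * (u * (u * (u * (u * (u * (X * u⁻¹)))))))) :=
    ⟨_, rfl⟩
  obtain ⟨c, hcc⟩ : ∃ c, c = X * (u⁻¹ * (X * (u⁻¹ * u⁻¹))) := ⟨_, rfl⟩
  obtain ⟨c', hc'⟩ : ∃ c', c' = H * (u * (u * (u * (u * (X * (u⁻¹ * u⁻¹)))))) := ⟨_, rfl⟩
  simp only [← ht, ← ha, ← hb, ← hb', ← hcc, ← hc'] at r1 r2 r3 r4 r5 r6 r7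
  obtain ⟨f, hf⟩ : ∃ f : Fin 7 → PresentedGroup (brels 5 7), f = ![t, a, t * b * t⁻¹, b, b', c, c'] :=
    ⟨_, rfl⟩
  have f0 : f 0 = t := by rw [hf]; rfl
  have f1 : f 1 = a := by rw [hf]; rfl
  have f2 : f 2 = t * b * t⁻¹ := by rw [hf]; rfl
  have f3 : f 3 = b := by rw [hf]; rfl
  have f4 : f 4 = b' := by rw [hf]; rfl
  have f5 : f 5 = c := by rw [hf]; rfl
  have f6 : f 6 = c' := by rw [hf]; rfl
  have hrel : ∀ w ∈ mrels, FreeGroup.lift f w = 1 := by
    intro w hw
    rcases hw with rfl | rfl | rfl | rfl | rfl | rfl | rfl | rfl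
    · simp only [map_mul, map_inv, FreeGroup.lift_apply_of, f0, f2, f3]
      rw [mul_inv_cancel]
    · simp only [map_mul, map_inv, FreeGroup.lift_apply_of, f0, f4, f5]
      rw [r1]
      group
    · simp only [map_mul, map_inv, FreeGroup.lift_apply_of, f0, f1, f6]
      rw [r2]
      group
    · simp only [map_mul, map_inv, FreeGroup.lift_apply_of, f1, f2, f6]
      have e : c'⁻¹ * a * c' = t * b * t⁻¹ := by
        have e1 : c'⁻¹ * (a * c' * t) = c'⁻¹ * (c' * t * b) := by rw [r3]
        have e2 : c'⁻¹ * (c' * t * b) = t * b := by group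
        rw [e2] at e1
        have e3 : c'⁻¹ * a * c' = c'⁻¹ * (a * c' * t) * t⁻¹ := by group
        rw [e3, e1]
      rw [e, mul_inv_cancel]
    · simp only [map_mul, map_inv, FreeGroup.lift_apply_of, f3, f5, f6]
      rw [r4]
      group
    · simp only [map_mul, map_inv, FreeGroup.lift_apply_of, f3, f4, f5]
      rw [r5]
      group
    · simp only [map_mul, map_inv, FreeGroup.lift_apply_of, f1, f3, f4]
      rw [r6, mul_inv_cancel]
    · simp only [map_mul, map_inv, FreeGroup.lift_apply_of, f0, f1, f3, f5, f6]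
      have e1 : c' * t * c⁻¹ * t⁻¹ * b⁻¹ * t * a = c' * t * (b * (t * c))⁻¹ * (t * a) := by group
      rw [e1, r7]
      group
  refine ⟨φ.comp (PresentedGroup.toGroup hrel), ?_⟩
  intro h0
  rw [MonoidHom.comp_apply, PresentedGroup.toGroup.of, f1, ha, map_mul, map_mul, map_mul] at h0
  apply hφ
  rw [← hH]
  -- the images of `X`, `u`, `H`
  have g1 : φ X * φ X = (φ H)⁻¹ := by rw [← map_mul, h1, map_inv]
  have g2 : φ u ^ 7 = (φ H)⁻¹ ^ 2 := by rw [← map_pow, h2', map_pow, map_inv]
  have g3 : φ u * φ H = φ H * φ u := by rw [← map_mul, hc, map_mul]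
  have g4 : φ X * (φ u * φ u) = (φ H)⁻¹ := eq_inv_of_mul_eq_one_right h0
  have g5 : φ X = φ u * φ u := by
    have : φ X * (φ u * φ u) = φ X * φ X := by rw [g4, g1]
    exact (mul_left_cancel this).symm
  have g6 : φ u ^ 4 = (φ H)⁻¹ := by
    rw [g5] at g1
    rw [← g1]
    simp only [pow_succ, pow_zero, one_mul, mul_assoc]
  have g7 : φ u ^ 8 = φ u ^ 7 := by
    rw [g2, ← g6, ← pow_mul]
  have g8 : φ u = 1 := by
    have : φ u ^ 7 * φ u = φ u ^ 7 * 1 := by rw [← pow_succ, g7, mul_one]
    exact mul_left_cancel this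
  rw [g8, one_pow] at g6
  exact (inv_eq_one.1 g6.symm)

end Pool.Agent.K3h88.LCM
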