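import Pool.Agent.K3h88.LCM.Main

/-!
# The fundamental group of the realization: statement of the brick
-/

set_option autoImplicit false

namespace Pool.Agent.K3h88.LCM

open Finset

/-- the geometric realization (barycentric coordinates) of the complex generated by `S`, a subspace
of `V → ℝ` -/
def Rz {V : Type} (S : Finset (Finset V)) : Type :=
  {x : V → ℝ // (∀ v, 0 ≤ x v) ∧ ∃ s ∈ S, (∀ v, v ∉ s → x v = 0) ∧ ∑ v ∈ s, x v = 1}

instance {V : Type} (S : Finset (Finset V)) : TopologicalSpace (Rz S) :=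
  inferInstanceAs (TopologicalSpace
    {x : V → ℝ // (∀ v, 0 ≤ x v) ∧ ∃ s ∈ S, (∀ v, v ∉ s → x v = 0) ∧ ∑ v ∈ s, x v = 1})

/-- brick TOP: if all cocycles with values in `H` are trivial, then so are all homomorphisms from
the fundamental group of the realization to `H` -/
def StmTop : Prop := ∀ (V : Type) [DecidableEq V] (S : Finset (Finset V)) (H : Type) [Group H],
  (∀ s ∈ S, ∀ t ∈ S, Relation.ReflTransGen (fun s t => s ∈ S ∧ t ∈ S ∧ (s ∩ t).Nonempty) s t) →
  (∀ g : V → V → H, (∀ s ∈ S, Rel g s) →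
    ∃ h : V → H, ∀ s ∈ S, ∀ a ∈ s, ∀ b ∈ s, g a b = (h a)⁻¹ * h b) →
  ∀ (x : Rz S) (φ : FundamentalGroup (Rz S) x →* H) (γ : FundamentalGroup (Rz S) x), φ γ = 1

end Pool.Agent.K3h88.LCM
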