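import Pool.Agent.K3h88.LCM.Stm

/-!
# Small facts about relations on triangles and faces
-/

set_option autoImplicit false

namespace Pool.Agent.K3h88.LCM

open Finset Quaternion

universe u v

variable {V : Type u} [DecidableEq V]

theorem mem_faces {F : Finset (Finset V)} {s : Finset V} :
    s ∈ faces F ↔ s.Nonempty ∧ ∃ A ∈ F, s ⊆ A := by
  unfold faces
  simp only [mem_filter, mem_biUnion, mem_powerset]
  tauto

theorem faces_mono {F : Finset (Finset V)} {s t : Finset V} (h : t ∈ faces F) (hs : s.Nonempty)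
    (hst : s ⊆ t) : s ∈ faces F := by
  rw [mem_faces] at h ⊢
  obtain ⟨-, A, hA, h2⟩ := h
  exact ⟨hs, A, hA, hst.trans h2⟩

theorem mem_tets {F : Finset (Finset V)} {k : ℕ} {τ : Finset V} :
    τ ∈ tets F k ↔ τ ∈ faces F ∧ τ.card = 4 ∧ (F.filter (fun A => τ ⊆ A)).card = k := by
  unfold tets
  rw [mem_filter]

theorem faces_tets {F : Finset (Finset V)} {k : ℕ} {s : Finset V} (h : s ∈ faces (tets F k)) :
    s ∈ faces F := by
  rw [mem_faces] at h
  obtain ⟨h1, A, hA, h2⟩ := h
  exact faces_mono (mem_tets.1 hA).1 h1 h2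

theorem Rel.one {H : Type v} [Group H] {x : V → V → H} {t : Finset V} (h : Rel x t) {a : V}
    (ha : a ∈ t) : x a a = 1 := by
  have := h a ha a ha a ha
  exact mul_eq_left.1 this

theorem Rel.inv {H : Type v} [Group H] {x : V → V → H} {t : Finset V} (h : Rel x t) {a b : V}
    (ha : a ∈ t) (hb : b ∈ t) : x b a = (x a b)⁻¹ := by
  have h1 := h a ha b hb a ha
  rw [h.one ha] at h1
  exact (inv_eq_of_mul_eq_one_right h1).symm

theorem Rel.mono {H : Type v} [Group H] {x : V → V → H} {s t : Finset V} (h : Rel x t)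
    (hst : s ⊆ t) : Rel x s :=
  fun a ha b hb c hc => h a (hst ha) b (hst hb) c (hst hc)

theorem rel_triangle {H : Type v} [Group H] {x : V → V → H} {a b c : V}
    (h1 : ∀ u, u = a ∨ u = b ∨ u = c → x u u = 1) (hab : x b a = (x a b)⁻¹)
    (hbc : x c b = (x b c)⁻¹) (hca : x a c = (x c a)⁻¹) (h : x a b * x b c * x c a = 1) :
    Rel x {a, b, c} := by
  have ha : x a a = 1 := h1 a (by tauto)
  have hb : x b b = 1 := h1 b (by tauto)
  have hc : x c c = 1 := h1 c (by tauto)
  have h2 : x a b * x b c = (x c a)⁻¹ := eq_inv_of_mul_eq_one_left h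
  have h3 : x a b = (x c a)⁻¹ * (x b c)⁻¹ := by rw [← h2]; group
  intro u hu v hv w hw
  simp only [mem_insert, mem_singleton] at hu hv hw
  rcases hu with rfl | rfl | rfl <;> rcases hv with rfl | rfl | rfl <;>
    rcases hw with rfl | rfl | rfl <;>
    simp only [ha, hb, hc, hab, hbc, hca, h3] <;> group

end Pool.Agent.K3h88.LCM
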